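import Mathlib

/-!
# A closed convex bounded SCD set whose weak topology has no countable pi-basis

The set `U` lies in `C[0,1] × ℝ × ℝ`.  It is the closed convex hull of the points
`(x n, 1 - t n ^ 2, t n)` with `t n = -1, 1, 1/2, 1/4, ...` and `‖x n‖ ≤ 1 - t n ^ 2`, where the
`x n` come close to every point of the unit ball infinitely often.  The tangents of the parabola
`a = 1 - b ^ 2` strongly expose these points, so `U` is SCD.  But for `|b| < 1 - a` the section of
`U` at `(a, b)` is the full ball of radius `a` of `C[0,1]`, and for every weakly open set the value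
at all but finitely many points of `[0,1]` is free.
-/

set_option autoImplicit false

open Set Topology Filter

namespace Pool.Agent.Results.MP_349854_an.NoCountablePiBasis

section Defs

variable {X : Type} [NormedAddCommGroup X] [NormedSpace ℝ X]

/-- The slice `S(A, f, ε)` of `A`. -/
def slice (A : Set X) (f : StrongDual ℝ X) (ε : ℝ) : Set X :=
  {x | x ∈ A ∧ sSup (f '' A) - ε < f x}

/-- A determining sequence of nonempty subsets of `A`. -/
def Determining (A : Set X) (V : ℕ → Set X) : Prop :=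
  (∀ n, (V n).Nonempty ∧ V n ⊆ A) ∧
    ∀ B : Set X, (∀ n, (B ∩ V n).Nonempty) → A ⊆ closure (convexHull ℝ B)

/-- Slicely countably determined sets. -/
def SCD (A : Set X) : Prop :=
  ∃ (f : ℕ → StrongDual ℝ X) (ε : ℕ → ℝ), (∀ n, f n ≠ 0 ∧ 0 < ε n) ∧
    Determining A fun n => slice A (f n) (ε n)

/-- The set `A`, viewed as a subset of the space `X` with its weak topology. -/
def Weak (A : Set X) : Set (WeakSpace ℝ X) := (toWeakSpace ℝ X).symm ⁻¹' A

end Defs

/-- The topological space `T` has a countable pi-basis. -/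
def CountablePiBasis (T : Type) [TopologicalSpace T] : Prop :=
  ∃ P : Set (Set T), P.Countable ∧ (∀ p ∈ P, IsOpen p ∧ p.Nonempty) ∧
    ∀ O : Set T, IsOpen O → O.Nonempty → ∃ p ∈ P, p ⊆ O

/-- The space `C[0,1]`. -/
abbrev Z : Type := C(unitInterval, ℝ)

/-- The Banach space. -/
abbrev X : Type := Z × ℝ × ℝ

/-- The numbers `t n`. -/
noncomputable def t : ℕ → ℝ
  | 0 => -1
  | n + 1 => (1 / 2) ^ n

/-- The numbers `1 - t n ^ 2`. -/
noncomputable def r (n : ℕ) : ℝ := 1 - t n ^ 2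

open Classical in
/-- A sequence in the unit ball of `C[0,1]` in which every member of a dense sequence occurs
infinitely often. -/
noncomputable def d (n : ℕ) : Z :=
  if ‖TopologicalSpace.denseSeq Z n.unpair.1‖ ≤ 1 then TopologicalSpace.denseSeq Z n.unpair.1 else 0

/-- The generating points. -/
noncomputable def p (n : ℕ) : X := (r n • d n, r n, t n)

/-- The set. -/
noncomputable def U : Set X := closure (convexHull ℝ (range p))

lemma t_abs (n : ℕ) : |t n| ≤ 1 := by
  cases n with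
  | zero => simp [t]
  | succ n =>
    simp only [t]
    rw [abs_of_nonneg (by positivity)]
    exact pow_le_one₀ (by norm_num) (by norm_num)

lemma r_nonneg (n : ℕ) : 0 ≤ r n := by
  have h := abs_le.1 (t_abs n)
  unfold r; nlinarith [h.1, h.2]

lemma r_le (n : ℕ) : r n ≤ 1 := by
  unfold r; nlinarith [sq_nonneg (t n)]

lemma d_norm (n : ℕ) : ‖d n‖ ≤ 1 := by
  unfold d; split_ifs with h
  · exact h
  · simp

lemma U_closed : IsClosed U := isClosed_closure

lemma U_convex : Convex ℝ U := (convex_convexHull ℝ _).closure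

lemma p_mem (n : ℕ) : p n ∈ U := subset_closure (subset_convexHull ℝ _ ⟨n, rfl⟩)

lemma U_min {E : Set X} (hc : IsClosed E) (hv : Convex ℝ E) (h : ∀ n, p n ∈ E) : U ⊆ E :=
  closure_minimal (convexHull_min (by rintro _ ⟨n, rfl⟩; exact h n) hv) hc

lemma U_bounds {u : X} (hu : u ∈ U) : ‖u.1‖ ≤ u.2.1 ∧ u.2.1 ≤ 1 := by
  have h1 : U ⊆ {u : X | ‖u.1‖ - u.2.1 ≤ 0} := by
    refine U_min ?_ ?_ ?_
    · exact isClosed_le (by fun_prop) continuous_const
    · have : ConvexOn ℝ univ (fun u : X => ‖u.1‖ - u.2.1) := by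
        refine ⟨convex_univ, ?_⟩
        intro x _ y _ a b ha hb hab
        have := norm_add_le (a • x.1) (b • y.1)
        rw [norm_smul, norm_smul, Real.norm_of_nonneg ha, Real.norm_of_nonneg hb] at this
        simp only [Prod.fst_add, Prod.smul_fst, Prod.snd_add, Prod.smul_snd, smul_eq_mul]
        linarith
      have h2 := this.convex_le 0
      simpa using h2
    · intro n
      simp only [mem_ofPred_eq, p]
      rw [norm_smul, Real.norm_of_nonneg (r_nonneg n)]
      nlinarith [r_nonneg n, d_norm n]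
  have h2 : U ⊆ {u : X | u.2.1 ≤ 1} := by
    refine U_min ?_ ?_ ?_
    · exact isClosed_le (by fun_prop) continuous_const
    · intro x hx y hy a b ha hb hab
      simp only [mem_ofPred_eq, Prod.snd_add, Prod.smul_snd, Prod.fst_add, Prod.smul_fst,
        smul_eq_mul] at *
      nlinarith
    · intro n
      exact r_le n
  exact ⟨by simpa using h1 hu, h2 hu⟩

lemma U_norm {u : X} (hu : u ∈ U) : ‖u‖ ≤ 1 := by
  have h : U ⊆ Metric.closedBall (0 : X) 1 := by
    refine U_min Metric.isClosed_closedBall (convex_closedBall _ _) fun n => ?_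
    rw [mem_closedBall_zero_iff]
    refine max_le ?_ (max_le ?_ ?_)
    · simp only [p]
      rw [norm_smul, Real.norm_of_nonneg (r_nonneg n)]
      nlinarith [r_nonneg n, d_norm n, r_le n, norm_nonneg (d n)]
    · simp only [p]
      rw [Real.norm_of_nonneg (r_nonneg n)]
      exact r_le n
    · exact t_abs n
  exact mem_closedBall_zero_iff.1 (h hu)

/-- The tangent functionals. -/
noncomputable def ell (s : ℝ) : StrongDual ℝ X :=
  (ContinuousLinearMap.fst ℝ ℝ ℝ).comp (ContinuousLinearMap.snd ℝ Z (ℝ × ℝ)) +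
    (2 * s) • (ContinuousLinearMap.snd ℝ ℝ ℝ).comp (ContinuousLinearMap.snd ℝ Z (ℝ × ℝ))

lemma ell_apply (s : ℝ) (u : X) : ell s u = u.2.1 + 2 * s * u.2.2 := by
  simp [ell]

lemma gap (n : ℕ) : ∃ γ : ℝ, 0 < γ ∧ ∀ m, m ≠ n → γ ≤ (t m - t n) ^ 2 := by
  have key : ∀ a b : ℕ, a < b → (1 / 2 : ℝ) ^ b ≤ (1 / 2) ^ a / 2 := by
    intro a b hab
    have : (1 / 2 : ℝ) ^ b ≤ (1 / 2) ^ (a + 1) :=
      pow_le_pow_of_le_one (by norm_num) (by norm_num) hab
    rw [pow_succ] at this
    linarith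
  cases n with
  | zero =>
    refine ⟨1, one_pos, fun m hm => ?_⟩
    obtain ⟨m, rfl⟩ := Nat.exists_eq_succ_of_ne_zero hm
    have : (0 : ℝ) ≤ (1 / 2) ^ m := by positivity
    simp only [t]
    nlinarith
  | succ n =>
    have hn : (0 : ℝ) < (1 / 2) ^ n := by positivity
    have hn1 : (1 / 2 : ℝ) ^ n ≤ 1 := pow_le_one₀ (by norm_num) (by norm_num)
    refine ⟨((1 / 2) ^ n / 2) ^ 2, by positivity, fun m hm => ?_⟩
    cases m with
    | zero =>
      simp only [t]
      nlinarith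
    | succ m =>
      have hm' : m ≠ n := fun h => hm (by rw [h])
      simp only [t]
      have hmp : (0 : ℝ) < (1 / 2) ^ m := by positivity
      rcases lt_or_gt_of_ne hm' with h | h
      · have := key _ _ h
        have h3 : (1 / 2 : ℝ) ^ n / 2 ≤ (1 / 2) ^ m - (1 / 2) ^ n := by linarith
        exact pow_le_pow_left₀ (by positivity) h3 2
      · have := key _ _ h
        have h3 : (1 / 2 : ℝ) ^ n / 2 ≤ (1 / 2) ^ n - (1 / 2) ^ m := by linarith
        rw [show ((1 / 2 : ℝ) ^ m - (1 / 2) ^ n) ^ 2 = ((1 / 2 : ℝ) ^ n - (1 / 2) ^ m) ^ 2 by ring]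
        exact pow_le_pow_left₀ (by positivity) h3 2

lemma expose (n : ℕ) : ∃ C : ℝ, 0 < C ∧ ∀ u ∈ U, ‖u - p n‖ ≤ C * (1 + t n ^ 2 - ell (t n) u) := by
  obtain ⟨γ, hγ, h⟩ := gap n
  refine ⟨2 / γ, by positivity, ?_⟩
  have hsub : U ⊆ {u : X | ‖u - p n‖ + (2 / γ) * ell (t n) u ≤ (2 / γ) * (1 + t n ^ 2)} := by
    refine U_min ?_ ?_ ?_
    · exact isClosed_le (by fun_prop) continuous_const
    · intro x hx y hy a b ha hb hab
      simp only [mem_ofPred_eq] at *
      have h1 : a • x + b • y - p n = a • (x - p n) + b • (y - p n) := by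
        have : p n = a • p n + b • p n := by rw [← add_smul, hab, one_smul]
        conv_lhs => rw [this]
        rw [smul_sub, smul_sub]; abel
      have h2 := norm_add_le (a • (x - p n)) (b • (y - p n))
      rw [norm_smul, norm_smul, Real.norm_of_nonneg ha, Real.norm_of_nonneg hb, ← h1] at h2
      rw [map_add, map_smul, map_smul, smul_eq_mul, smul_eq_mul]
      have h3 := mul_le_mul_of_nonneg_left hx ha
      have h4 := mul_le_mul_of_nonneg_left hy hb
      have h5 : a * (2 / γ * (1 + t n ^ 2)) + b * (2 / γ * (1 + t n ^ 2)) =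
          2 / γ * (1 + t n ^ 2) := by rw [← add_mul, hab, one_mul]
      nlinarith
    · intro m
      simp only [mem_ofPred_eq, ell_apply]
      rcases eq_or_ne m n with rfl | hm
      · simp only [sub_self, norm_zero, p, r]
        apply le_of_eq; ring
      · have h1 : ‖p m - p n‖ ≤ 2 := by
          have := norm_sub_le (p m) (p n)
          linarith [U_norm (p_mem m), U_norm (p_mem n)]
        have h2 := h m hm
        have h3 : (p m).2.1 + 2 * t n * (p m).2.2 = 1 + t n ^ 2 - (t m - t n) ^ 2 := by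
          simp only [p, r]; ring
        rw [h3]
        have h4 : 2 ≤ 2 / γ * (t m - t n) ^ 2 := by
          rw [div_mul_eq_mul_div, le_div_iff₀ hγ]; nlinarith
        nlinarith
  intro u hu
  have := hsub hu
  simp only [mem_ofPred_eq] at this
  nlinarith

lemma ell_p (n : ℕ) : ell (t n) (p n) = 1 + t n ^ 2 := by
  rw [ell_apply]; simp only [p, r]; ring

lemma ell_le (n : ℕ) {u : X} (hu : u ∈ U) : ell (t n) u ≤ 1 + t n ^ 2 := by
  obtain ⟨C, hC, h⟩ := expose n
  have h1 := (norm_nonneg _).trans (h u hu)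
  by_contra hlt
  push Not at hlt
  have : C * (1 + t n ^ 2 - ell (t n) u) < 0 := mul_neg_of_pos_of_neg hC (by linarith)
  linarith

lemma sSup_ell (n : ℕ) : sSup (ell (t n) '' U) = 1 + t n ^ 2 := by
  apply IsGreatest.csSup_eq
  refine ⟨⟨p n, p_mem n, ell_p n⟩, ?_⟩
  rintro _ ⟨u, hu, rfl⟩
  exact ell_le n hu

lemma ell_ne (s : ℝ) : ell s ≠ 0 := by
  intro h
  have h1 := ell_apply s ((0 : Z), (1 : ℝ), (0 : ℝ))
  rw [h] at h1
  simp at h1

lemma U_scd : SCD U := by
  refine ⟨fun k => ell (t k.unpair.1), fun k => 1 / ((k.unpair.2 : ℝ) + 1),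
    fun k => ⟨ell_ne _, by positivity⟩, ?_, ?_⟩
  · intro k
    refine ⟨⟨p k.unpair.1, p_mem _, ?_⟩, fun u hu => hu.1⟩
    rw [sSup_ell, ell_p]
    have : (0 : ℝ) < 1 / ((k.unpair.2 : ℝ) + 1) := by positivity
    linarith
  · intro B hB
    refine U_min isClosed_closure (convex_convexHull ℝ B).closure fun n => ?_
    refine closure_mono (subset_convexHull ℝ B) ?_
    rw [Metric.mem_closure_iff]
    intro ε hε
    obtain ⟨C, hC, h⟩ := expose n
    obtain ⟨j, hj⟩ := exists_nat_one_div_lt (div_pos hε hC)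
    obtain ⟨b, hb, hbs⟩ := hB (Nat.pair n j)
    refine ⟨b, hb, ?_⟩
    simp only [Nat.unpair_pair] at hbs
    obtain ⟨hbU, hb2⟩ := hbs
    rw [sSup_ell] at hb2
    rw [dist_comm, dist_eq_norm]
    refine (h b hbU).trans_lt ?_
    have h2 : 1 + t n ^ 2 - ell (t n) b < ε / C := by linarith
    calc C * (1 + t n ^ 2 - ell (t n) b) < C * (ε / C) := mul_lt_mul_of_pos_left h2 hC
      _ = ε := by field_simp

lemma t_tendsto : Tendsto t atTop (𝓝 0) := by
  rw [← tendsto_add_atTop_iff_nat 1]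
  exact tendsto_pow_atTop_nhds_zero_of_lt_one (by norm_num) (by norm_num)

lemma top_dense (k : ℕ) (hk : ‖TopologicalSpace.denseSeq Z k‖ ≤ 1) :
    ((TopologicalSpace.denseSeq Z k, (1 : ℝ), (0 : ℝ)) : X) ∈ U := by
  set z := TopologicalSpace.denseSeq Z k with hz
  have h1 : Tendsto (fun j => Nat.pair k j) atTop atTop :=
    tendsto_atTop_mono (fun j => Nat.right_le_pair k j) tendsto_id
  have h2 : Tendsto (fun j => t (Nat.pair k j)) atTop (𝓝 0) := t_tendsto.comp h1
  have h3 : Tendsto (fun j => r (Nat.pair k j)) atTop (𝓝 1) := by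
    have := (h2.pow 2).const_sub 1
    simpa [r] using this
  have h4 : Tendsto (fun j => p (Nat.pair k j)) atTop (𝓝 (z, (1 : ℝ), (0 : ℝ))) := by
    have h5 : (fun j => p (Nat.pair k j)) = fun j => ((r (Nat.pair k j) • z, r (Nat.pair k j),
        t (Nat.pair k j)) : X) := by
      funext j
      simp only [p, d, Nat.unpair_pair]
      rw [if_pos hk]
    rw [h5]
    have h6 : Tendsto (fun j => r (Nat.pair k j) • z) atTop (𝓝 z) := by
      have := h3.smul_const z
      simpa using this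
    exact h6.prodMk_nhds (h3.prodMk_nhds h2)
  exact U_closed.mem_of_tendsto h4 (Eventually.of_forall fun j => p_mem _)

lemma top_ball (y : Z) (hy : ‖y‖ ≤ 1) : ((y, (1 : ℝ), (0 : ℝ)) : X) ∈ U := by
  have hcl : IsClosed {y : Z | ((y, (1 : ℝ), (0 : ℝ)) : X) ∈ U} :=
    U_closed.preimage (by fun_prop)
  have h1 : Metric.ball (0 : Z) 1 ⊆ {y : Z | ((y, (1 : ℝ), (0 : ℝ)) : X) ∈ U} := by
    refine ((TopologicalSpace.denseRange_denseSeq Z).open_subset_closure_inter
      Metric.isOpen_ball).trans ?_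
    refine closure_minimal ?_ hcl
    rintro _ ⟨hb, k, rfl⟩
    exact top_dense k (mem_ball_zero_iff.1 hb).le
  have h2 : closure (Metric.ball (0 : Z) 1) ⊆ {y : Z | ((y, (1 : ℝ), (0 : ℝ)) : X) ∈ U} :=
    closure_minimal h1 hcl
  rw [closure_ball _ one_ne_zero] at h2
  exact h2 (mem_closedBall_zero_iff.2 hy)

lemma bottom (b : ℝ) (hb : |b| ≤ 1) : (((0 : Z), (0 : ℝ), b) : X) ∈ U := by
  have h := abs_le.1 hb
  have h1 := U_convex (p_mem 0) (p_mem 1) (show 0 ≤ (1 - b) / 2 by linarith)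
    (show 0 ≤ (1 + b) / 2 by linarith) (by ring)
  convert h1 using 1
  simp only [p, r, t]
  norm_num
  ring

/-- Below the tent, the sections are balls. -/
lemma cone (z : Z) (a b : ℝ) (ha : 0 < a) (hz : ‖z‖ ≤ a) (hb : |b| < 1 - a) :
    ((z, a, b) : X) ∈ U := by
  have h1a : 0 < 1 - a := (abs_nonneg b).trans_lt hb
  have h1 := top_ball (a⁻¹ • z) (by
    rw [norm_smul, norm_inv, Real.norm_of_nonneg ha.le, inv_mul_le_iff₀ ha]; linarith)
  have h2 := bottom (b / (1 - a)) (by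
    rw [abs_div, abs_of_pos h1a, div_le_one h1a]; exact hb.le)
  have h3 := U_convex h1 h2 ha.le h1a.le (by ring)
  convert h3 using 1
  simp only [Prod.smul_mk, Prod.mk_add_mk, smul_zero, add_zero, smul_smul, smul_eq_mul, mul_one,
    mul_zero, zero_add]
  rw [mul_inv_cancel₀ ha.ne', one_smul]
  congr 2
  field_simp

/-- Basic weak neighbourhoods. -/
lemma weak_nhd {O : Set (WeakSpace ℝ X)} (hO : IsOpen O) {w : X} (hw : toWeakSpace ℝ X w ∈ O) :
    ∃ (s : Finset (StrongDual ℝ X)) (δ : ℝ), 0 < δ ∧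
      ∀ g : X, (∀ f ∈ s, |f g| < δ) → toWeakSpace ℝ X (w + g) ∈ O := by
  obtain ⟨V, hV, rfl⟩ := isOpen_induced_iff.1 hO
  rw [isOpen_pi_iff] at hV
  obtain ⟨I, u, hu, hIu⟩ := hV _ hw
  have h1 : ∀ f : StrongDual ℝ X, f ∈ I → ∃ δ : ℝ, 0 < δ ∧ ∀ y : ℝ, |y - f w| < δ → y ∈ u f := by
    intro f hf
    obtain ⟨ho, hm⟩ := hu f hf
    obtain ⟨δ, hδ, hb⟩ := Metric.isOpen_iff.1 ho _ hm
    exact ⟨δ, hδ, fun y hy => hb (by rw [Metric.mem_ball, Real.dist_eq]; exact hy)⟩
  choose! D hD1 hD2 using h1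
  classical
  obtain ⟨δ, hδ, hδI⟩ : ∃ δ : ℝ, 0 < δ ∧ ∀ f ∈ I, δ ≤ D f := by
    rcases I.eq_empty_or_nonempty with rfl | hne
    · exact ⟨1, one_pos, by simp⟩
    · obtain ⟨f0, hf0, hmin⟩ := I.exists_min_image D hne
      exact ⟨D f0, hD1 f0 hf0, hmin⟩
  refine ⟨I, δ, hδ, fun g hg => hIu ?_⟩
  intro f hf
  have hf' : f ∈ I := hf
  refine hD2 f hf' _ ?_
  have : (f (w + g) - f w) = f g := by rw [map_add]; ring
  change |f (w + g) - f w| < D f
  rw [this]
  exact (hg f hf').trans_le (hδI f hf')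

/-- The weakly open sets `W x`, as subsets of `X`. -/
def W (x : unitInterval) : Set X := {u | |u.1 x| < 1 / 8 ∧ 1 / 2 < u.2.1 ∧ |u.2.2| < 1 - u.2.1}

/-- The sum of the values of disjointly supported functions. -/
lemma finite_W {O : Set (WeakSpace ℝ X)} (hO : IsOpen O) {w : X} (hwU : w ∈ U)
    (hw : toWeakSpace ℝ X w ∈ O) :
    {x : unitInterval | ∀ v ∈ U, toWeakSpace ℝ X v ∈ O → v ∈ W x}.Finite := by
  classical
  by_contra hinf
  change Set.Infinite _ at hinf
  obtain ⟨x0, hx0⟩ := hinf.nonempty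
  obtain ⟨-, ha, hb⟩ := hx0 w hwU hw
  obtain ⟨Φ, δ, hδ, hΦ⟩ := weak_nhd hO hw
  obtain ⟨N, hN⟩ := exists_nat_gt ((∑ f ∈ Φ, ‖f‖ * 2) / δ)
  obtain ⟨s, hs, hcard⟩ := hinf.exists_subset_card_eq N
  obtain ⟨V, hV1, hV2⟩ := s.finite_toSet.t2_separation
  obtain ⟨hz, ha1⟩ := U_bounds hwU
  have hphi : ∀ x : unitInterval, ∃ φ : Z, φ x = 1 ∧ (∀ y, y ∉ V x → φ y = 0) ∧
      ∀ y, 0 ≤ φ y ∧ φ y ≤ 1 := by
    intro x
    obtain ⟨φ, h0, h1, h2⟩ := exists_continuous_zero_one_of_isClosed (hV1 x).2.isClosed_compl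
      (isClosed_singleton (x := x)) (by
        rw [Set.disjoint_singleton_right]
        simpa using (hV1 x).1)
    refine ⟨φ, h1 rfl, fun y hy => h0 hy, fun y => h2 y⟩
  choose φ hφ1 hφ0 hφb using hphi
  set g : unitInterval → Z := fun x => φ x * (ContinuousMap.const _ w.2.1 - w.1) with hg
  have hgy : ∀ x y, g x y = φ x y * (w.2.1 - w.1 y) := fun x y => rfl
  have hwy : ∀ y, |w.1 y| ≤ w.2.1 := fun y => (w.1.norm_coe_le_norm y).trans hz
  have hmem : ∀ x, w + ((g x, (0 : ℝ), (0 : ℝ)) : X) ∈ U := by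
    intro x
    have h1 := cone (w.1 + g x) w.2.1 w.2.2 (by linarith) (by
      rw [ContinuousMap.norm_le _ (by linarith)]
      intro y
      rw [ContinuousMap.add_apply, hgy, Real.norm_eq_abs, abs_le]
      have h1 := abs_le.1 (hwy y)
      have h2 := hφb x y
      constructor <;> nlinarith [h1.1, h1.2, h2.1, h2.2]) hb
    convert h1 using 1
    ext <;> simp
  have hbig : ∀ x ∈ s, δ ≤ ∑ f ∈ Φ, |f ((g x, (0 : ℝ), (0 : ℝ)) : X)| := by
    intro x hx
    by_contra hlt
    push Not at hlt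
    have h1 := hΦ ((g x, (0 : ℝ), (0 : ℝ)) : X) (fun f hf =>
      (Finset.single_le_sum (f := fun f : StrongDual ℝ X => |f ((g x, (0 : ℝ), (0 : ℝ)) : X)|)
        (fun _ _ => abs_nonneg _) hf).trans_lt hlt)
    have h2 := (hs hx _ (hmem x) h1).1
    have h3 : (w + ((g x, (0 : ℝ), (0 : ℝ)) : X)).1 x = w.2.1 := by
      rw [Prod.fst_add, ContinuousMap.add_apply, hgy, hφ1]; ring
    rw [h3, abs_of_pos (by linarith)] at h2
    linarith
  have hone : ∀ y, ∑ x ∈ s, φ x y ≤ 1 := by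
    intro y
    by_cases hy : ∃ x ∈ s, y ∈ V x
    · obtain ⟨x, hx, hyx⟩ := hy
      rw [Finset.sum_eq_single_of_mem x hx]
      · exact (hφb x y).2
      · intro x' hx' hne
        refine hφ0 x' y fun hy' => ?_
        exact Set.disjoint_left.1 (hV2 hx' hx hne) hy' hyx
    · push Not at hy
      rw [Finset.sum_eq_zero fun x hx => hφ0 x y (hy x hx)]
      exact zero_le_one
  have hf : ∀ f : StrongDual ℝ X, ∑ x ∈ s, |f ((g x, (0 : ℝ), (0 : ℝ)) : X)| ≤ ‖f‖ * 2 := by
    intro f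
    set σ : unitInterval → ℝ := fun x => SignType.sign (f ((g x, (0 : ℝ), (0 : ℝ)) : X)) with hσ
    have hσ1 : ∀ x, |σ x| ≤ 1 := by
      intro x
      rcases lt_trichotomy (f ((g x, (0 : ℝ), (0 : ℝ)) : X)) 0 with h | h | h <;>
        simp [hσ, h, sign_neg, sign_pos]
    have h1 : ∑ x ∈ s, |f ((g x, (0 : ℝ), (0 : ℝ)) : X)| =
        f (∑ x ∈ s, σ x • ((g x, (0 : ℝ), (0 : ℝ)) : X)) := by
      rw [map_sum]
      refine Finset.sum_congr rfl fun x _ => ?_
      rw [map_smul, smul_eq_mul, hσ]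
      exact (sign_mul_self _).symm
    rw [h1]
    refine (le_abs_self _).trans ((f.le_opNorm _).trans ?_)
    refine mul_le_mul_of_nonneg_left ?_ (norm_nonneg _)
    have h2 : ∑ x ∈ s, σ x • ((g x, (0 : ℝ), (0 : ℝ)) : X) =
        ((∑ x ∈ s, σ x • g x, (0 : ℝ), (0 : ℝ)) : X) := by
      ext <;> simp [Prod.fst_sum, Prod.snd_sum]
    rw [h2]
    refine max_le ?_ (by simp)
    rw [ContinuousMap.norm_le _ (by norm_num)]
    intro y
    rw [ContinuousMap.sum_apply]
    refine (norm_sum_le _ _).trans ?_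
    calc ∑ x ∈ s, ‖(σ x • g x) y‖ ≤ ∑ x ∈ s, φ x y * 2 := by
          refine Finset.sum_le_sum fun x _ => ?_
          rw [ContinuousMap.smul_apply, hgy, norm_smul, Real.norm_eq_abs, Real.norm_eq_abs, abs_mul,
            abs_of_nonneg (hφb x y).1]
          have h3 : |w.2.1 - w.1 y| ≤ 2 := by
            have := abs_le.1 (hwy y)
            rw [abs_le]; constructor <;> linarith [this.1, this.2]
          have h4 := (hφb x y).1
          calc |σ x| * (φ x y * |w.2.1 - w.1 y|) ≤ 1 * (φ x y * 2) := by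
                gcongr
                exact hσ1 x
            _ = φ x y * 2 := one_mul _
      _ ≤ 2 := by rw [← Finset.sum_mul]; nlinarith [hone y]
  have h1 : (N : ℝ) * δ ≤ ∑ f ∈ Φ, ‖f‖ * 2 := by
    calc (N : ℝ) * δ = ∑ x ∈ s, δ := by rw [Finset.sum_const, hcard, nsmul_eq_mul]
      _ ≤ ∑ x ∈ s, ∑ f ∈ Φ, |f ((g x, (0 : ℝ), (0 : ℝ)) : X)| := Finset.sum_le_sum hbig
      _ = ∑ f ∈ Φ, ∑ x ∈ s, |f ((g x, (0 : ℝ), (0 : ℝ)) : X)| := Finset.sum_comm
      _ ≤ _ := Finset.sum_le_sum fun f _ => hf f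
  rw [div_lt_iff₀ hδ] at hN
  linarith

lemma not_pi : ¬ CountablePiBasis (Weak U) := by
  rintro ⟨P, hP, hPo, hPb⟩
  have hWopen : ∀ x, IsOpen {v : Weak U | (toWeakSpace ℝ X).symm v.1 ∈ W x} := by
    intro x
    have key : ∀ f : StrongDual ℝ X, Continuous fun v : Weak U =>
        f ((toWeakSpace ℝ X).symm v.1) := fun f =>
      (WeakBilin.eval_continuous (topDualPairing ℝ X).flip f).comp continuous_subtype_val
    have h1 : Continuous fun v : Weak U => ((toWeakSpace ℝ X).symm v.1).1 x := by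
      have := key ((ContinuousMap.evalCLM ℝ x).comp (ContinuousLinearMap.fst ℝ Z (ℝ × ℝ)))
      exact this
    have h2 : Continuous fun v : Weak U => ((toWeakSpace ℝ X).symm v.1).2.1 :=
      key ((ContinuousLinearMap.fst ℝ ℝ ℝ).comp (ContinuousLinearMap.snd ℝ Z (ℝ × ℝ)))
    have h3 : Continuous fun v : Weak U => ((toWeakSpace ℝ X).symm v.1).2.2 :=
      key ((ContinuousLinearMap.snd ℝ ℝ ℝ).comp (ContinuousLinearMap.snd ℝ Z (ℝ × ℝ)))
    exact (isOpen_lt h1.abs continuous_const).inter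
      ((isOpen_lt continuous_const h2).inter (isOpen_lt h3.abs (continuous_const.sub h2)))
  have hex : ∀ x, ∃ q ∈ P, q ⊆ {v : Weak U | (toWeakSpace ℝ X).symm v.1 ∈ W x} := by
    intro x
    refine hPb _ (hWopen x) ?_
    have h0 : (((0 : Z), (3 / 5 : ℝ), (0 : ℝ)) : X) ∈ U :=
      cone 0 (3 / 5) 0 (by norm_num) (by norm_num) (by norm_num)
    refine ⟨⟨toWeakSpace ℝ X (((0 : Z), (3 / 5 : ℝ), (0 : ℝ)) : X), h0⟩, ?_⟩
    change |(0 : Z) x| < 1 / 8 ∧ (1 : ℝ) / 2 < 3 / 5 ∧ |(0 : ℝ)| < 1 - 3 / 5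
    norm_num
  have hfin : ∀ q ∈ P, {x : unitInterval |
      q ⊆ {v : Weak U | (toWeakSpace ℝ X).symm v.1 ∈ W x}}.Finite := by
    intro q hq
    obtain ⟨ho, v, hv⟩ := hPo q hq
    obtain ⟨O, hO, rfl⟩ := isOpen_induced_iff.1 ho
    refine (finite_W hO (w := (toWeakSpace ℝ X).symm v.1) v.2 hv).subset ?_
    intro x hx u hu huO
    have := @hx ⟨toWeakSpace ℝ X u, hu⟩ huO
    exact this
  have hcount : (univ : Set unitInterval).Countable := by
    refine (hP.biUnion fun q hq => (hfin q hq).countable).mono ?_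
    intro x _
    obtain ⟨q, hq, hqx⟩ := hex x
    exact mem_biUnion hq hqx
  have h2 := hcount.image (Subtype.val : unitInterval → ℝ)
  rw [image_univ, Subtype.range_coe] at h2
  exact (Cardinal.Real.Icc_countable_iff.1 h2).not_gt zero_lt_one

/-- There is a closed convex bounded slicely countably determined subset of `C[0,1] × ℝ × ℝ`
whose relative weak topology has no countable pi-basis. -/
theorem result : ∃ U : Set (C(unitInterval, ℝ) × ℝ × ℝ), IsClosed U ∧ Convex ℝ U ∧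
    Bornology.IsBounded U ∧ SCD U ∧ ¬ CountablePiBasis (Weak U) :=
  ⟨U, U_closed, U_convex, (Metric.isBounded_closedBall (x := (0 : X)) (r := 1)).subset
    fun _ hu => mem_closedBall_zero_iff.2 (U_norm hu), U_scd, not_pi⟩

end Pool.Agent.Results.MP_349854_an.NoCountablePiBasis
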